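import Mathlib

set_option autoImplicit false

namespace Pool.Agent.Results.MP_e8f8b0_gt.HurewiczCH

open Set Filter Topology

/-- The Hurewicz covering property of a topological space. -/
def Hurewicz (T : Type) [TopologicalSpace T] : Prop :=
  ∀ U : ℕ → Set (Set T), (∀ n, (∀ u ∈ U n, IsOpen u) ∧ ⋃₀ (U n) = Set.univ) →
    ∃ F : ℕ → Set (Set T), (∀ n, (F n).Finite ∧ F n ⊆ U n) ∧
      ∀ x : T, ∀ᶠ n in Filter.atTop, x ∈ ⋃₀ (F n)

/-- A set of reals (subspace of the Cantor space) is productively Hurewicz if its product with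
every Hurewicz set of reals is Hurewicz. -/
def ProductivelyHurewicz (X : Set (ℕ → Bool)) : Prop :=
  ∀ Y : Set (ℕ → Bool), Hurewicz Y → Hurewicz (X × Y)

/-- `X` is `κ`-concentrated on `A`. -/
def ConcentratedOn (κ : Cardinal.{0}) (X A : Set (ℕ → Bool)) : Prop :=
  κ ≤ Cardinal.mk X ∧
    ∀ U : Set (ℕ → Bool), IsOpen U → A ⊆ U → Cardinal.mk (X \ U : Set (ℕ → Bool)) < κ

/-- `X` is `κ`-concentrated, that is, `κ`-concentrated on some countable `A ⊆ X`. -/
def Concentrated (κ : Cardinal.{0}) (X : Set (ℕ → Bool)) : Prop :=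
  ∃ A : Set (ℕ → Bool), A ⊆ X ∧ A.Countable ∧ ConcentratedOn κ X A

/-- The bounding number: the least size of a family of functions that is unbounded under
eventual domination. -/
noncomputable def boundingNumber : Cardinal.{0} :=
  sInf {κ : Cardinal.{0} | ∃ B : Set (ℕ → ℕ), Cardinal.mk B = κ ∧
    ∀ g : ℕ → ℕ, ∃ f ∈ B, ¬ ∀ᶠ n in Filter.atTop, f n ≤ g n}

/-- separation of a Hurewicz set from countably many closed sets by a sigma-compact set -/
theorem hurewicz_sep_nat {K : Type} [TopologicalSpace K] [CompactSpace K] [T2Space K]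
    (X : Set K) (hX : Hurewicz X) (E : ℕ → Set K) (hE : ∀ i, IsClosed (E i))
    (hd : ∀ i, Disjoint X (E i)) :
    ∃ P : ℕ → Set K, (∀ m, IsCompact (P m)) ∧ X ⊆ ⋃ m, P m ∧
      ∀ m i, Disjoint (P m) (E i) := by
  classical
  set E' : ℕ → Set K := fun n => ⋃ i ∈ Finset.range (n+1), E i with hE'
  have hE'c : ∀ n, IsClosed (E' n) := by
    intro n
    apply Set.Finite.isClosed_biUnion (Finset.finite_toSet _)
    intro i _
    exact hE i
  have hE'd : ∀ n, Disjoint X (E' n) := by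
    intro n
    rw [Set.disjoint_left]
    intro x hx hx'
    simp only [hE', Set.mem_iUnion] at hx'
    obtain ⟨i, _, hi⟩ := hx'
    exact Set.disjoint_left.1 (hd i) hx hi
  let U : ℕ → Set (Set X) := fun n =>
    {u | IsOpen u ∧ ∃ C : Set K, IsClosed C ∧ Disjoint C (E' n) ∧ Subtype.val '' u ⊆ C}
  have hU : ∀ n, (∀ u ∈ U n, IsOpen u) ∧ ⋃₀ (U n) = Set.univ := by
    intro n
    refine ⟨fun u hu => hu.1, ?_⟩
    rw [Set.eq_univ_iff_forall]
    intro x
    have hx : (x : K) ∈ (E' n)ᶜ := fun h => Set.disjoint_left.1 (hE'd n) x.2 h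
    have hnh : (E' n)ᶜ ∈ 𝓝 (x : K) := (hE'c n).isOpen_compl.mem_nhds hx
    obtain ⟨t, ht, htc, hts⟩ := exists_mem_nhds_isClosed_subset hnh
    refine ⟨Subtype.val ⁻¹' (interior t), ⟨isOpen_interior.preimage continuous_subtype_val,
      t, htc, ?_, ?_⟩, ?_⟩
    · rw [Set.disjoint_left]
      intro y hy hy'
      exact hts hy hy'
    · rintro _ ⟨y, hy, rfl⟩
      exact interior_subset hy
    · exact mem_interior_iff_mem_nhds.2 ht
  obtain ⟨F, hF, hFx⟩ := hX U hU
  have hch : ∀ n, ∀ u : Set X, u ∈ F n → ∃ C : Set K, IsClosed C ∧ Disjoint C (E' n) ∧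
      Subtype.val '' u ⊆ C := fun n u hu => ((hF n).2 hu).2
  choose! C hC using hch
  let D : ℕ → Set K := fun n => ⋃ u ∈ F n, C n u
  have hDc : ∀ n, IsClosed (D n) := by
    intro n
    exact (hF n).1.isClosed_biUnion fun u hu => (hC n u hu).1
  have hDd : ∀ n, Disjoint (D n) (E' n) := by
    intro n
    rw [Set.disjoint_left]
    intro x hx hx'
    simp only [D, Set.mem_iUnion] at hx
    obtain ⟨u, hu, hxu⟩ := hx
    exact Set.disjoint_left.1 (hC n u hu).2.1 hxu hx'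
  refine ⟨fun m => ⋂ n ∈ Set.Ici m, D n, ?_, ?_, ?_⟩
  · intro m
    exact (isClosed_biInter fun n _ => hDc n).isCompact
  · intro x hx
    obtain ⟨m, hm⟩ := (Filter.eventually_atTop.1 (hFx ⟨x, hx⟩))
    simp only [Set.mem_iUnion, Set.mem_iInter]
    refine ⟨m, fun n hn => ?_⟩
    obtain ⟨u, hu, hxu⟩ := hm n hn
    simp only [D, Set.mem_iUnion]
    exact ⟨u, hu, (hC n u hu).2.2 ⟨⟨x, hx⟩, hxu, rfl⟩⟩
  · intro m i
    rw [Set.disjoint_left]
    intro x hx hxi
    simp only [Set.mem_iInter] at hx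
    have h1 := hx (max m i) (le_max_left m i)
    refine Set.disjoint_left.1 (hDd (max m i)) h1 ?_
    simp only [hE', Set.mem_iUnion]
    exact ⟨i, Finset.mem_range.2 (Nat.lt_succ_of_le (le_max_right m i)), hxi⟩

theorem hurewicz_sep {K : Type} [TopologicalSpace K] [CompactSpace K] [T2Space K]
    (X : Set K) (hX : Hurewicz X) {ι : Type} [Countable ι] (E : ι → Set K)
    (hE : ∀ i, IsClosed (E i)) (hd : ∀ i, Disjoint X (E i)) :
    ∃ P : ℕ → Set K, (∀ m, IsCompact (P m)) ∧ X ⊆ ⋃ m, P m ∧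
      ∀ m i, Disjoint (P m) (E i) := by
  rcases isEmpty_or_nonempty ι with h | h
  · exact ⟨fun _ => Set.univ, fun _ => isCompact_univ, fun x _ => Set.mem_iUnion.2 ⟨0, trivial⟩,
      fun _ i => (h.false i).elim⟩
  · obtain ⟨f, hf⟩ := exists_surjective_nat ι
    obtain ⟨P, h1, h2, h3⟩ := hurewicz_sep_nat X hX (fun n => E (f n)) (fun n => hE _)
      (fun n => hd _)
    refine ⟨P, h1, h2, fun m i => ?_⟩
    obtain ⟨n, rfl⟩ := hf i
    exact h3 m n

/-- the converse criterion -/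
theorem hurewicz_of_sep {L T : Type} [TopologicalSpace L] [TopologicalSpace T]
    (e : T → L) (he : IsInducing e)
    (h : ∀ W : ℕ → Set L, (∀ n, IsOpen (W n)) → (∀ n, Set.range e ⊆ W n) →
      ∃ F : ℕ → Set L, (∀ m, IsCompact (F m)) ∧ Set.range e ⊆ ⋃ m, F m ∧ ∀ m n, F m ⊆ W n) :
    Hurewicz T := by
  classical
  intro U hU
  -- lift the open covers
  have hlift : ∀ n, ∀ u : Set T, u ∈ U n → ∃ v : Set L, IsOpen v ∧ e ⁻¹' v = u := by
    intro n u hu
    exact he.isOpen_iff.1 ((hU n).1 u hu)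
  choose! V hV using hlift
  let W : ℕ → Set L := fun n => ⋃ u ∈ U n, V n u
  have hWo : ∀ n, IsOpen (W n) := fun n => isOpen_biUnion fun u hu => (hV n u hu).1
  have hWr : ∀ n, Set.range e ⊆ W n := by
    rintro n _ ⟨t, rfl⟩
    have : t ∈ ⋃₀ (U n) := by rw [(hU n).2]; trivial
    obtain ⟨u, hu, htu⟩ := this
    simp only [W, Set.mem_iUnion]
    refine ⟨u, hu, ?_⟩
    have := (hV n u hu).2
    rw [← this] at htu
    exact htu
  obtain ⟨F, hFc, hFr, hFW⟩ := h W hWo hWr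
  let F' : ℕ → Set L := fun n => ⋃ i ∈ Finset.range (n+1), F i
  have hF'c : ∀ n, IsCompact (F' n) := fun n =>
    (Finset.range (n+1)).isCompact_biUnion fun i _ => hFc i
  have hF'W : ∀ n, F' n ⊆ ⋃ u : U n, V n u := by
    intro n x hx
    simp only [F', Set.mem_iUnion] at hx
    obtain ⟨i, _, hi⟩ := hx
    have := hFW i n hi
    simp only [W, Set.mem_iUnion] at this
    obtain ⟨u, hu, hxu⟩ := this
    exact Set.mem_iUnion.2 ⟨⟨u, hu⟩, hxu⟩
  have hfin : ∀ n, ∃ t : Finset (U n), F' n ⊆ ⋃ u ∈ t, V n u := fun n =>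
    (hF'c n).elim_finite_subcover (fun u : U n => V n u) (fun u => (hV n u u.2).1) (hF'W n)
  choose t ht using hfin
  refine ⟨fun n => Subtype.val '' (t n : Set (U n)), fun n => ⟨?_, ?_⟩, ?_⟩
  · exact (Finset.finite_toSet _).image _
  · rintro _ ⟨u, _, rfl⟩
    exact u.2
  · intro x
    have hx : e x ∈ ⋃ m, F m := hFr ⟨x, rfl⟩
    obtain ⟨m, hm⟩ := Set.mem_iUnion.1 hx
    rw [Filter.eventually_atTop]
    refine ⟨m, fun n hn => ?_⟩
    have h1 : e x ∈ F' n := by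
      simp only [F', Set.mem_iUnion]
      exact ⟨m, Finset.mem_range.2 (Nat.lt_succ_of_le hn), hm⟩
    have h2 := ht n h1
    simp only [Set.mem_iUnion] at h2
    obtain ⟨u, hu, hxu⟩ := h2
    refine ⟨u, ⟨u, hu, rfl⟩, ?_⟩
    rw [← (hV n u u.2).2]
    exact hxu

/-- projection of a compact piece -/
theorem isClosed_proj {K : Type} [TopologicalSpace K] [T2Space K] [CompactSpace K]
    (E : Set (K × K)) (hE : IsClosed E) (P : Set K) (hP : IsCompact P) :
    IsClosed {x : K | ∃ y ∈ P, (x, y) ∈ E} := by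
  have h1 : IsCompact (E ∩ (Set.univ ×ˢ P)) :=
    (isCompact_univ.prod hP).inter_left hE
  have h2 : {x : K | ∃ y ∈ P, (x, y) ∈ E} = Prod.fst '' (E ∩ (Set.univ ×ˢ P)) := by
    ext x
    constructor
    · rintro ⟨y, hy, hxy⟩
      exact ⟨(x, y), ⟨hxy, trivial, hy⟩, rfl⟩
    · rintro ⟨⟨a, b⟩, ⟨h, _, hb⟩, rfl⟩
      exact ⟨b, hb, h⟩
  rw [h2]
  exact (h1.image continuous_fst).isClosed

/-- The main ZFC argument: a Hurewicz set `X`, all but countably many of whose points lie in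
any given open neighbourhood of a fixed countable subset `A`, is productively Hurewicz. -/
theorem main {K : Type} [TopologicalSpace K] [T2Space K] [CompactSpace K]
    (X Y A : Set K) (hX : Hurewicz X) (hY : Hurewicz Y) (hAX : A ⊆ X) (hA : A.Countable)
    (hconc : ∀ U : Set K, IsOpen U → A ⊆ U → (X \ U).Countable) :
    Hurewicz (X × Y) := by
  apply hurewicz_of_sep (L := K × K) (fun p : X × Y => ((p.1 : K), (p.2 : K)))
    (IsInducing.subtypeVal.prodMap IsInducing.subtypeVal)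
  intro W hWo hWr
  have hXY : ∀ x ∈ X, ∀ y ∈ Y, ∀ n, (x, y) ∈ W n := by
    intro x hx y hy n
    exact hWr n ⟨(⟨x, hx⟩, ⟨y, hy⟩), rfl⟩
  -- Step 1
  have : Countable A := hA.to_subtype
  have hsec : ∀ x n, IsClosed {y : K | (x, y) ∈ (W n)ᶜ} := by
    intro x n
    exact (hWo n).isClosed_compl.preimage (Continuous.prodMk_right x)
  obtain ⟨P, hPc, hPY, hPd⟩ := hurewicz_sep Y hY (fun i : A × ℕ => {y : K | ((i.1 : K), y) ∈ (W i.2)ᶜ})
    (fun i => hsec _ _) (by
      rintro ⟨a, n⟩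
      rw [Set.disjoint_left]
      intro y hy hy'
      exact hy' (hXY a (hAX a.2) y hy n))
  -- Step 2
  let C : ℕ × ℕ → Set K := fun p => {x : K | ∃ y ∈ P p.1, (x, y) ∈ (W p.2)ᶜ}
  have hCc : ∀ p, IsClosed (C p) := fun p => isClosed_proj _ (hWo p.2).isClosed_compl _ (hPc p.1)
  have hCA : ∀ p, A ⊆ (C p)ᶜ := by
    rintro ⟨i, n⟩ a ha ⟨y, hy, hay⟩
    exact Set.disjoint_left.1 (hPd i (⟨a, ha⟩, n)) hy hay
  let X0 : Set K := ⋃ p : ℕ × ℕ, X \ (C p)ᶜ
  have hX0 : X0.Countable := Set.countable_iUnion fun p => hconc _ (hCc p).isOpen_compl (hCA p)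
  have : Countable X0 := hX0.to_subtype
  have hX0X : X0 ⊆ X := by
    intro x hx
    obtain ⟨p, hp⟩ := Set.mem_iUnion.1 hx
    exact hp.1
  -- Step 3
  obtain ⟨Q, hQc, hQY, hQd⟩ := hurewicz_sep Y hY
    (fun i : X0 × ℕ => {y : K | ((i.1 : K), y) ∈ (W i.2)ᶜ})
    (fun i => hsec _ _) (by
      rintro ⟨a, n⟩
      rw [Set.disjoint_left]
      intro y hy hy'
      exact hy' (hXY a (hX0X a.2) y hy n))
  -- Step 4
  let L : ℕ × ℕ → Set K := fun p => P p.1 ∩ Q p.2
  have hLc : ∀ p, IsCompact (L p) := fun p => (hPc p.1).inter (hQc p.2)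
  let D : (ℕ × ℕ) × ℕ → Set K := fun p => {x : K | ∃ y ∈ L p.1, (x, y) ∈ (W p.2)ᶜ}
  have hDc : ∀ p, IsClosed (D p) := fun p => isClosed_proj _ (hWo p.2).isClosed_compl _ (hLc p.1)
  have hDX : ∀ p, Disjoint X (D p) := by
    rintro ⟨⟨i, j⟩, n⟩
    rw [Set.disjoint_left]
    rintro x hx ⟨y, ⟨hyP, hyQ⟩, hxy⟩
    have hx0 : x ∈ X0 := by
      refine Set.mem_iUnion.2 ⟨(i, n), hx, ?_⟩
      intro h
      exact h ⟨y, hyP, hxy⟩
    exact Set.disjoint_left.1 (hQd j (⟨x, hx0⟩, n)) hyQ hxy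
  -- Step 5
  obtain ⟨R, hRc, hRX, hRd⟩ := hurewicz_sep X hX D hDc hDX
  obtain ⟨e⟩ : Nonempty (ℕ ≃ ℕ × (ℕ × ℕ)) := ⟨(Denumerable.eqv _).symm⟩
  refine ⟨fun m => R (e m).1 ×ˢ L (e m).2, fun m => (hRc _).prod (hLc _), ?_, ?_⟩
  · rintro _ ⟨⟨⟨x, hx⟩, ⟨y, hy⟩⟩, rfl⟩
    obtain ⟨k, hk⟩ := Set.mem_iUnion.1 (hRX hx)
    obtain ⟨i, hi⟩ := Set.mem_iUnion.1 (hPY hy)
    obtain ⟨j, hj⟩ := Set.mem_iUnion.1 (hQY hy)
    refine Set.mem_iUnion.2 ⟨e.symm (k, (i, j)), ?_⟩
    simp only [Equiv.apply_symm_apply]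
    exact ⟨hk, hi, hj⟩
  · rintro m n ⟨x, y⟩ ⟨hx, hy⟩
    by_contra hxy
    exact Set.disjoint_left.1 (hRd (e m).1 ((e m).2, n)) hx ⟨y, hy, hxy⟩

/-- every countable family of functions is bounded under eventual domination -/
theorem countable_bounded (B : Set (ℕ → ℕ)) (hB : B.Countable) :
    ∃ g : ℕ → ℕ, ∀ f ∈ B, ∀ᶠ n in Filter.atTop, f n ≤ g n := by
  classical
  rcases B.eq_empty_or_nonempty with h | h
  · exact ⟨fun _ => 0, by simp [h]⟩
  · obtain ⟨s, hs⟩ := hB.exists_eq_range h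
    refine ⟨fun n => ∑ i ∈ Finset.range (n+1), s i n, ?_⟩
    rintro f hf
    rw [hs] at hf
    obtain ⟨i, rfl⟩ := hf
    rw [Filter.eventually_atTop]
    refine ⟨i, fun n hn => ?_⟩
    exact Finset.single_le_sum (f := fun i => s i n) (fun _ _ => Nat.zero_le _)
      (Finset.mem_range.2 (Nat.lt_succ_of_le hn))

theorem aleph_one_le_bounding : Cardinal.aleph 1 ≤ boundingNumber := by
  unfold boundingNumber
  apply le_csInf
  · refine ⟨Cardinal.mk (Set.univ : Set (ℕ → ℕ)), Set.univ, rfl, fun g => ?_⟩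
    refine ⟨fun n => g n + 1, trivial, ?_⟩
    intro h
    obtain ⟨m, hm⟩ := Filter.eventually_atTop.1 h
    exact Nat.not_succ_le_self _ (hm m le_rfl)
  · rintro κ ⟨B, rfl, hB⟩
    by_contra hlt
    rw [not_le, ← Cardinal.succ_aleph0, Order.lt_succ_iff] at hlt
    obtain ⟨g, hg⟩ := countable_bounded B (Cardinal.le_aleph0_iff_set_countable.1 hlt)
    obtain ⟨f, hf, hfg⟩ := hB g
    exact hfg (hg f hf)

theorem bounding_le_continuum : boundingNumber ≤ Cardinal.continuum := by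
  unfold boundingNumber
  have h : Cardinal.mk (Set.univ : Set (ℕ → ℕ)) = Cardinal.continuum := by
    rw [Cardinal.mk_univ]
    simp
  rw [← h]
  apply csInf_le'
  refine ⟨Set.univ, rfl, fun g => ⟨fun n => g n + 1, trivial, ?_⟩⟩
  intro h
  obtain ⟨m, hm⟩ := Filter.eventually_atTop.1 h
  exact Nat.not_succ_le_self _ (hm m le_rfl)

/-- If the bounding number is `ℵ₁`, in particular under the Continuum Hypothesis, every Hurewicz
`𝔟`-concentrated set of reals is productively Hurewicz. -/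
theorem result
    (h : Cardinal.continuum.{0} = Cardinal.aleph 1 ∨ boundingNumber = Cardinal.aleph 1)
    (X : Set (ℕ → Bool)) (hX : Hurewicz X) (hc : Concentrated boundingNumber X) :
    ProductivelyHurewicz X := by
  have hb : boundingNumber = Cardinal.aleph 1 := by
    rcases h with h | h
    · exact le_antisymm (h ▸ bounding_le_continuum) aleph_one_le_bounding
    · exact h
  obtain ⟨A, hAX, hA, _, hU⟩ := hc
  intro Y hY
  refine main X Y A hX hY hAX hA ?_
  intro U hUo hAU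
  have := hU U hUo hAU
  rw [hb, ← Cardinal.succ_aleph0, Order.lt_succ_iff] at this
  exact Cardinal.le_aleph0_iff_set_countable.1 this

end Pool.Agent.Results.MP_e8f8b0_gt.HurewiczCH
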